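import Mathlib
import Pool.Agent.K7.H87.BL.Fre

/-!
# A wild automorphism of the free Bol loop of exponent two with two generators
-/

set_option autoImplicit false

namespace Pool.Agent.J4.H9.BolTame

open Pool.Agent.K7.H87.BL

universe u v

section general

variable {B : Type u} [BolLoop B]

/-- right multiplication as a permutation -/
def R (a : B) : Equiv.Perm B where
  toFun p := p * a
  invFun p := p * a
  left_inv p := rr p a
  right_inv p := rr p a

theorem R_apply (a p : B) : R a p = p * a := rfl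

theorem R_bol (a b : B) : R ((a * b) * a) = R a * R b * R a := by
  ext p
  show p * ((a * b) * a) = ((p * a) * b) * a
  exact (bol p a b).symm

theorem R_sq (a : B) : R a * R a = 1 := by
  ext p
  exact rr p a

theorem yx_eq (x y : B) : (x * ((y * (x * y)) * y)) * x = y * x := by
  rw [← bol, K7.H87.BL.sq, one_mul']

theorem R_yx (x y : B) : R (y * x) = R x * (R y * R (x * y) * R y) * R x := by
  rw [← yx_eq x y, R_bol, R_bol]

/-- the group generated by three right multiplications -/
def M (x y : B) : Subgroup (Equiv.Perm B) := Subgroup.closure {R x, R y, R (x * y)}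

theorem M_x (x y : B) : R x ∈ M x y := Subgroup.subset_closure (by simp)
theorem M_y (x y : B) : R y ∈ M x y := Subgroup.subset_closure (by simp)
theorem M_xy (x y : B) : R (x * y) ∈ M x y := Subgroup.subset_closure (by simp)

theorem M_yx (x y : B) : R (y * x) ∈ M x y := by
  rw [R_yx]
  exact mul_mem (mul_mem (M_x x y) (mul_mem (mul_mem (M_y x y) (M_xy x y)) (M_y x y))) (M_x x y)

theorem M_le {x y x' y' : B} (h1 : R x' ∈ M x y) (h2 : R y' ∈ M x y) (h3 : R (x' * y') ∈ M x y) :
    M x' y' ≤ M x y := by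
  unfold M
  rw [Subgroup.closure_le]
  rintro g (rfl | rfl | rfl)
  · exact h1
  · exact h2
  · exact h3

theorem M_swap (x y : B) : M y x = M x y :=
  le_antisymm (M_le (M_y x y) (M_x x y) (M_yx x y)) (M_le (M_y y x) (M_x y x) (M_yx y x))

theorem M1 (x y : B) : M (x * y) y = M x y := by
  apply le_antisymm
  · refine M_le (M_xy x y) (M_y x y) ?_
    rw [rr]; exact M_x x y
  · have h := M_xy (x * y) y
    rw [rr] at h
    exact M_le h (M_y _ _) (M_x _ _)

theorem M2 (x y : B) : M (y * x) y = M x y := by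
  apply le_antisymm
  · refine M_le (M_yx x y) (M_y x y) ?_
    rw [R_bol]
    exact mul_mem (mul_mem (M_y x y) (M_x x y)) (M_y x y)
  · have h : R x ∈ M (y * x) y := by
      have h1 : R x = R y * R ((y * x) * y) * R y := by
        rw [R_bol]
        have h2 := R_sq y
        calc R x = 1 * R x * 1 := by simp
          _ = (R y * R y) * R x * (R y * R y) := by rw [h2]
          _ = _ := by simp only [mul_assoc]
      rw [h1]
      exact mul_mem (mul_mem (M_y _ _) (M_xy _ _)) (M_y _ _)
    refine M_le h (M_y _ _) ?_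
    rw [R_yx y x]
    exact mul_mem (mul_mem (M_y _ _) (mul_mem (mul_mem h (M_x _ _)) h)) (M_y _ _)

theorem M3 (x y : B) : M x (y * x) = M x y := by
  rw [M_swap (y * x) x, M1, M_swap]

theorem M4 (x y : B) : M x (x * y) = M x y := by
  rw [M_swap (x * y) x, M2, M_swap]

/-- the orbit of `1` -/
def P (x y : B) : Set B := {p | ∃ g ∈ M x y, g 1 = p}

variable {C : Type v} [BolLoop C]

theorem M_hom (F : B → C) (hF : ∀ a b, F (a * b) = F a * F b) (x y : B) {g : Equiv.Perm B}
    (hg : g ∈ M x y) : ∃ g' ∈ M (F x) (F y), ∀ p, F (g p) = g' (F p) := by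
  induction hg using Subgroup.closure_induction with
  | mem g hg =>
    rcases hg with rfl | rfl | rfl
    · exact ⟨_, M_x _ _, fun p => hF _ _⟩
    · exact ⟨_, M_y _ _, fun p => hF _ _⟩
    · refine ⟨_, M_xy _ _, fun p => ?_⟩
      show F (p * (x * y)) = F p * (F x * F y)
      rw [hF, hF]
  | one => exact ⟨1, one_mem _, fun p => rfl⟩
  | mul g1 g2 _ _ h1 h2 =>
    obtain ⟨a, ha, ha'⟩ := h1
    obtain ⟨b, hb, hb'⟩ := h2
    exact ⟨a * b, mul_mem ha hb, fun p => by
      show F (g1 (g2 p)) = a (b (F p))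
      rw [ha', hb']⟩
  | inv g _ h =>
    obtain ⟨a, ha, ha'⟩ := h
    refine ⟨a⁻¹, inv_mem ha, fun p => ?_⟩
    rw [Equiv.Perm.eq_inv_iff_eq, ← ha']
    congr 1
    exact g.apply_symm_apply p

theorem P_hom (F : B → C) (hF : ∀ a b, F (a * b) = F a * F b) (x y : B) {p : B}
    (hp : p ∈ P x y) : F p ∈ P (F x) (F y) := by
  obtain ⟨g, hg, rfl⟩ := hp
  obtain ⟨g', hg', h⟩ := M_hom F hF x y hg
  exact ⟨g', hg', by rw [h, hom_one hF]⟩

/-- the automorphisms which preserve the orbit -/
def SP (x y : B) : Subgroup (B ≃* B) where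
  carrier := {φ | ∀ p, φ p ∈ P x y ↔ p ∈ P x y}
  one_mem' p := Iff.rfl
  mul_mem' {φ ψ} h1 h2 p := (h1 (ψ p)).trans (h2 p)
  inv_mem' {φ} h p := by
    have h1 := h (φ⁻¹ p)
    rw [MulAut.apply_inv_self] at h1
    exact h1.symm

theorem mem_SP {x y : B} {φ : B ≃* B} (h : M (φ x) (φ y) = M x y) : φ ∈ SP x y := by
  intro p
  have hP : P (φ x) (φ y) = P x y := by
    unfold P; rw [h]
  constructor
  · intro hp
    rw [← hP] at hp
    have h1 := P_hom φ.symm (map_mul φ.symm) _ _ hp
    simpa using h1
  · intro hp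
    have h1 := P_hom φ (map_mul φ) _ _ hp
    rwa [hP] at h1

/-- `v` is in the subloop generated by `S` -/
def Gen (S : Set B) (v : B) : Prop := ∀ T : Subloop B, S ⊆ T.carrier → v ∈ T.carrier

/-- the subloop of order at most two -/
def two (a : B) : Subloop B where
  carrier := {1, a}
  one_mem := by simp
  mul_mem := by
    rintro x (rfl | rfl) y (rfl | rfl)
    · left; exact one_mul' 1
    · right; exact one_mul' _
    · right; exact mul_one' _
    · left; exact K7.H87.BL.sq _
  ldiv_mem := by
    rintro x (rfl | rfl) y (rfl | rfl) z hz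
    · left; rw [one_mul'] at hz; exact hz
    · right; rw [one_mul'] at hz; exact hz
    · right; exact eq_of_mul hz
    · left
      apply lcan (a := y)
      rw [hz, mul_one']
  rdiv_mem := by
    rintro x (rfl | rfl) y (rfl | rfl) z hz
    · left; rw [mul_one'] at hz; exact hz
    · right; rw [mul_one'] at hz; exact hz
    · right; exact rcan (hz.trans (K7.H87.BL.sq _).symm)
    · left
      apply rcan (a := y)
      rw [hz, one_mul']

theorem gen_two {a v : B} (h : Gen {a} v) : v = 1 ∨ v = a := by
  have h1 := h (two a) (by intro x hx; right; exact hx)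
  exact h1

/-- elementary automorphisms of a free loop with the free generators `ι` -/
def Elem {X : Type*} (ι : X → B) (φ : B ≃* B) : Prop :=
  ∃ (i : X) (v : B), Gen (ι '' {j | j ≠ i}) v ∧ (φ (ι i) = ι i * v ∨ φ (ι i) = v * ι i) ∧
    ∀ j, j ≠ i → φ (ι j) = ι j

theorem elem_SP (ι : Fin 2 → B) {φ : B ≃* B} (h : Elem ι φ) : φ ∈ SP (ι 0) (ι 1) := by
  obtain ⟨i, v, hv, h1, h2⟩ := h
  apply mem_SP
  fin_cases i
  · have e : (ι '' {j | j ≠ (0 : Fin 2)}) = {ι 1} := by
      have : {j | j ≠ (0 : Fin 2)} = {1} := by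
        ext j; fin_cases j <;> simp
      rw [this, Set.image_singleton]
    have h3 := h2 1 (by simp)
    rw [h3]
    replace hv : Gen (ι '' {j | j ≠ (0 : Fin 2)}) v := hv
    rw [e] at hv
    simp only [Fin.zero_eta] at h1
    rcases gen_two hv with rfl | rfl
    · rcases h1 with h1 | h1
      · rw [h1, mul_one']
      · rw [h1, one_mul']
    · rcases h1 with h1 | h1
      · rw [h1, M1]
      · rw [h1, M2]
  · have e : (ι '' {j | j ≠ (1 : Fin 2)}) = {ι 0} := by
      have : {j | j ≠ (1 : Fin 2)} = {0} := by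
        ext j; fin_cases j <;> simp
      rw [this, Set.image_singleton]
    have h3 := h2 0 (by simp)
    rw [h3]
    replace hv : Gen (ι '' {j | j ≠ (1 : Fin 2)}) v := hv
    rw [e] at hv
    simp only [Fin.mk_one] at h1
    rcases gen_two hv with rfl | rfl
    · rcases h1 with h1 | h1
      · rw [h1, mul_one']
      · rw [h1, one_mul']
    · rcases h1 with h1 | h1
      · rw [h1, M3]
      · rw [h1, M4]

/-- tame automorphisms preserve the orbit -/
theorem tame_SP (ι : Fin 2 → B) {φ : B ≃* B} (h : φ ∈ Subgroup.closure {ψ | Elem ι ψ}) :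
    φ ∈ SP (ι 0) (ι 1) := by
  have h1 : Subgroup.closure {ψ | Elem ι ψ} ≤ SP (ι 0) (ι 1) := by
    rw [Subgroup.closure_le]
    exact fun ψ hψ => elem_SP ι hψ
  exact h1 h

/-- conjugation -/
theorem cj (p a b : B) : (p * a) * b = (p * b) * ((b * a) * b) := by
  rw [← bol, rr]

/-- the word `((x y) x) y` -/
def cw (x y : B) : B := ((x * y) * x) * y

/-- the composition of the right multiplications by `x`, `y`, `x`, `y` and `((x y) x) y`: it fixes
`1`, so it is an automorphism -/
def wild (x y : B) : B ≃* B where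
  toFun p := ((((p * x) * y) * x) * y) * cw x y
  invFun p := ((((p * cw x y) * y) * x) * y) * x
  left_inv p := by simp only [rr]
  right_inv p := by simp only [rr]
  map_mul' p a := by
    have h : ∀ p, ((((p * a * x) * y) * x) * y) * cw x y = (((((p * x) * y) * x) * y) * cw x y) *
        ((cw x y * ((y * ((x * ((y * ((x * a) * x)) * y)) * x)) * y)) * cw x y) := by
      intro p
      rw [cj p a x, cj (p * x) _ y, cj ((p * x) * y) _ x, cj (((p * x) * y) * x) _ y,
        cj ((((p * x) * y) * x) * y) _ (cw x y)]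
    have h1 := h 1
    rw [one_mul', one_mul'] at h1
    rw [h p, h1]
    congr 1
    rw [show ((x * y) * x) * y = cw x y from rfl, K7.H87.BL.sq, one_mul']

theorem wild_x (x y : B) : wild x y x = ((y * x) * y) * cw x y := by
  show ((((x * x) * y) * x) * y) * cw x y = _
  rw [K7.H87.BL.sq, one_mul']

theorem x_mem_P (x y : B) : x ∈ P x y := ⟨R x, M_x x y, one_mul' x⟩

/-- the automorphism is wild as soon as the orbit of `1` does not contain a certain element -/
theorem wild_of (ι : Fin 2 → B)
    (h : ((ι 1 * ι 0) * ι 1) * cw (ι 0) (ι 1) ∉ P (ι 0) (ι 1)) :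
    wild (ι 0) (ι 1) ∉ Subgroup.closure {ψ | Elem ι ψ} := by
  intro h1
  have h2 := (tame_SP ι h1 (ι 0)).2 (x_mem_P _ _)
  rw [wild_x] at h2
  exact h h2

end general

end Pool.Agent.J4.H9.BolTame
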