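import Mathlib
import Pool.Agent.J4.H9.BolTame

/-!
# The explicit free Bol loop of exponent two with two generators
-/

set_option autoImplicit false

namespace Pool.Agent.J4.H9.BolTame

open Pool.Agent.K7.H87.BL

abbrev X2 : Type := Fin 2
abbrev L2 : Type := Ltr X2

/-- the first letter -/
def g0 : L2 := Ltr.g 0
/-- the second letter -/
def g1 : L2 := Ltr.g 1

theorem g01 : g0 ≠ g1 := by
  intro h
  unfold g0 g1 at h
  injection h with h
  exact absurd h (by decide)

theorem mem_St0 {z : L2} : z ∈ St X2 0 ↔ z = g0 ∨ z = g1 := by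
  constructor
  · rintro ⟨i, rfl⟩
    fin_cases i
    · left; rfl
    · right; rfl
  · rintro (rfl | rfl)
    · exact ⟨0, rfl⟩
    · exact ⟨1, rfl⟩

theorem st0_not_n {z : L2} (hz : z ∈ St X2 0) (w : List L2) : z ≠ Ltr.n w := by
  obtain ⟨i, rfl⟩ := hz
  exact fun h => Ltr.g_ne_n h

theorem st0_not_core {z : L2} (hz : z ∈ St X2 0) (v : List L2) : ¬ IsCore z v := by
  rintro ⟨w, hw, -⟩
  exact st0_not_n hz w hw

open Classical in
/-- the move of the position -/
noncomputable def stp (z : L2) (p : ℤ) : ℤ := if (z = g0 ↔ Even p) then p + 1 else p - 1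

theorem stp_even (z : L2) (p : ℤ) : Even (stp z p) ↔ ¬ Even p := by
  unfold stp
  split_ifs
  · exact Int.even_add_one
  · exact Int.even_sub_one

theorem stp_stp (z : L2) (p : ℤ) : stp z (stp z p) = p := by
  have h := stp_even z p
  by_cases hp : z = g0 ↔ Even p
  · have e1 : stp z p = p + 1 := if_pos hp
    have h' : ¬ (z = g0 ↔ Even (stp z p)) := by rw [h, hp]; tauto
    have e2 : stp z (stp z p) = stp z p - 1 := if_neg h'
    rw [e2, e1]; ring
  · have e1 : stp z p = p - 1 := if_neg hp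
    have h' : (z = g0 ↔ Even (stp z p)) := by rw [h]; tauto
    have e2 : stp z (stp z p) = stp z p + 1 := if_pos h'
    rw [e2, e1]; ring

theorem stp_add2 (z : L2) (p : ℤ) : stp z (p + 2) = stp z p + 2 := by
  have h : Even (p + 2) ↔ Even p := by simp
  by_cases hp : z = g0 ↔ Even p
  · have e1 : stp z p = p + 1 := if_pos hp
    have e2 : stp z (p + 2) = p + 2 + 1 := if_pos (by rw [h]; exact hp)
    rw [e1, e2]; ring
  · have e1 : stp z p = p - 1 := if_neg hp
    have e2 : stp z (p + 2) = p + 2 - 1 := if_neg (by rw [h]; exact hp)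
    rw [e1, e2]; ring

/-- the position of a list of letters -/
noncomputable def pos : List L2 → ℤ
  | [] => 0
  | z :: v => stp z (pos v)

/-- the run of the positions -/
noncomputable def stk : List L2 → ℤ → ℤ
  | [], p => p
  | z :: l, p => stp z (stk l p)

theorem stk_add2 (l : List L2) (p : ℤ) : stk l (p + 2) = stk l p + 2 := by
  induction l with
  | nil => rfl
  | cons z l ih =>
    show stp z (stk l (p + 2)) = stp z (stk l p) + 2
    rw [ih, stp_add2]

theorem stk_even (l : List L2) (p : ℤ) : Even (stk l p) ↔ (Even p ↔ Even l.length) := by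
  induction l with
  | nil => simp [stk]
  | cons z l ih =>
    show Even (stp z (stk l p)) ↔ _
    rw [stp_even, ih, List.length_cons, Nat.even_add_one]
    tauto

theorem pos_act {z : L2} (hz : z ∈ St X2 0) (v : List L2) : pos (act z v) = stp z (pos v) := by
  rcases act_cases z v with h1 | ⟨-, -, h1⟩ | ⟨-, x', h1, h2⟩
  · exact absurd h1 (st0_not_core hz v)
  · rw [h1]; rfl
  · rw [h2, h1]
    show pos x' = stp z (stp z (pos x'))
    rw [stp_stp]

theorem pos_fr (l : List L2) (hl : ∀ y ∈ l, y ∈ St X2 0) (v : List L2) :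
    pos (fr l v) = stk l (pos v) := by
  induction l with
  | nil => rfl
  | cons z l ih =>
    show pos (act z (fr l v)) = stp z (stk l (pos v))
    rw [pos_act (hl z List.mem_cons_self), ih (fun y hy => hl y (List.mem_cons_of_mem _ hy))]

/-- even points are not adjacent to the base point -/
theorem not_adj {c : List L2} (hc : Even (pos c)) : ¬ Adj (St X2 0) [] c := by
  rintro ⟨l, z, hl, hz, rfl⟩
  have h1 : br l (act z (fr l [])) = fr (l.reverse ++ (z :: l)) [] := by
    rw [fr_append, fr_reverse]; rfl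
  have h2 : ∀ y ∈ l.reverse ++ (z :: l), y ∈ St X2 0 := by
    intro y hy
    rcases List.mem_append.1 hy with h | h
    · exact hl y (List.mem_reverse.1 h)
    · rcases List.mem_cons.1 h with rfl | h
      · exact hz
      · exact hl y h
  rw [h1, pos_fr _ h2, stk_even] at hc
  have h3 : ¬ Even (l.reverse ++ (z :: l)).length := by
    rw [List.length_append, List.length_reverse, List.length_cons]
    intro h
    obtain ⟨k, hk⟩ := h
    omega
  have h4 : Even (pos ([] : List L2)) := by simp [pos]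
  tauto

/-- equivalent pairs -/
theorem eqv_pos {w w' : List L2} (hw : pos w = 2) (h : Eqv (St X2 0) w w') :
    pos w' = 2 ∨ pos w' = -2 := by
  obtain ⟨k, hk, h | h⟩ := h
  · left
    rw [← h.2, pos_fr k hk, hw]
    have h1 := pos_fr k hk []
    rw [h.1] at h1
    have h2 := stk_add2 k 0
    simp only [pos, zero_add] at h1 h2
    rw [h2, ← h1]; rfl
  · right
    have h1 := pos_fr k hk []
    rw [h.1] at h1
    have h2 := pos_fr k hk w
    rw [h.2, hw] at h2
    have h3 := stk_add2 k 0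
    simp only [pos, zero_add] at h1 h2 h3
    rw [h3, ← h1] at h2
    omega

/-- the point `x y` -/
def cc1 : List L2 := [g1, g0]
/-- the point `((x y) x) y` -/
def cc2 : List L2 := [g1, g0, g1, g0]

theorem st00 : stp g0 0 = 1 := by simp [stp]
theorem st11 : stp g1 1 = 2 := by simp [stp, g01.symm]
theorem st02 : stp g0 2 = 3 := by simp [stp]
theorem st13 : stp g1 3 = 4 := by
  have : ¬ Even (3 : ℤ) := by decide
  simp [stp, g01.symm, this]

theorem pos1 : pos cc1 = 2 := by
  show stp g1 (stp g0 0) = 2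
  rw [st00, st11]

theorem pos2 : pos cc2 = 4 := by
  show stp g1 (stp g0 (stp g1 (stp g0 0))) = 4
  rw [st00, st11, st02, st13]

theorem om_of {v : List L2} (hv : ∀ z ∈ v, z ∈ St X2 0) (hr : Red v) : Om (St X2 0) v := by
  refine ⟨?_, hv⟩
  induction v with
  | nil => trivial
  | cons z v ih =>
    have h1 := hr
    rw [Red, List.isChain_cons] at h1
    refine ⟨ih (fun y hy => hv y (List.mem_cons_of_mem _ hy)) h1.2, ?_, ?_⟩
    · intro h
      exact h1.1 z (by rw [h]; rfl) rfl
    · intro w hw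
      exact absurd hw (st0_not_n (hv z List.mem_cons_self) w)

theorem g0_mem : g0 ∈ St X2 0 := ⟨0, rfl⟩
theorem g1_mem : g1 ∈ St X2 0 := ⟨1, rfl⟩

theorem om1 : Om (St X2 0) cc1 := by
  apply om_of
  · intro z hz
    simp only [cc1, List.mem_cons, List.not_mem_nil, or_false] at hz
    rcases hz with rfl | rfl
    · exact g1_mem
    · exact g0_mem
  · simp [Red, cc1, g01.symm]

theorem om2 : Om (St X2 0) cc2 := by
  apply om_of
  · intro z hz
    simp only [cc2, List.mem_cons, List.not_mem_nil, or_false] at hz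
    rcases hz with rfl | rfl | rfl | rfl
    · exact g1_mem
    · exact g0_mem
    · exact g1_mem
    · exact g0_mem
  · simp [Red, cc2, g01.symm, g01]

/-- the word of the new letter -/
noncomputable def ww (c : List L2) : List L2 := rep (St X2 0) c

theorem ww_ne : ww cc1 ≠ ww cc2 := by
  intro h
  obtain ⟨h1, h2⟩ := rep_spec (X := X2) om1
  obtain ⟨h3, h4⟩ := rep_spec (X := X2) om2
  have h5 : Eqv (St X2 0) cc1 (ww cc2) := by rw [← h]; exact h2
  have h6 := h5.trans (h4.symm (St_cl 0) om2)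
  have h7 := eqv_pos pos1 h6
  rw [pos2] at h7
  omega

theorem ww_spec {c : List L2} (hc : Om (St X2 0) c) (he : Even (pos c)) (h0 : c ≠ []) :
    Om (St X2 0) (ww c) ∧ ww c ≠ [] ∧ Ltr.n (ww c) ∈ St X2 1 ∧
    ∃ k : List L2, (∀ y ∈ k, y ∈ St X2 0) ∧ fr k (act (Ltr.n (ww c)) (br k [])) = c := by
  have hP := St_cl (X := X2) 0
  obtain ⟨h1, h2⟩ := rep_spec hc
  have h3 := h2.symm hP hc
  have hw0 : ww c ≠ [] := by
    intro h
    unfold ww at h
    rw [h] at h3
    obtain ⟨k, hk, hk2⟩ := h3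
    rcases hk2 with ⟨h4, h5⟩ | ⟨h4, h5⟩
    · exact h0 (h5.symm.trans h4)
    · exact h0 (h4.symm.trans h5)
  have hA := not_adj he
  have hn : ¬ Adj (St X2 0) [] (ww c) := fun h => hA (adj_eqv hP h1 hc h3 h)
  have hr : rep (St X2 0) (ww c) = ww c := (rep_eq hP hc h1 h2).symm
  have hmem : Ltr.n (ww c) ∈ St X2 1 := Or.inr ⟨ww c, rfl, h1, hw0, hn, hr⟩
  refine ⟨h1, hw0, hmem, ?_⟩
  obtain ⟨k, hk, ⟨h4, h5⟩ | ⟨h4, h5⟩⟩ := h3
  · refine ⟨k, hk, ?_⟩
    have h6 : br k [] = [] := by
      conv_lhs => rw [← h4]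
      exact br_fr hP k hk om_nil
    rw [h6, act_core1]
    exact h5
  · refine ⟨k, hk, ?_⟩
    have h6 : br k [] = ww c := by
      conv_lhs => rw [← h5]
      exact br_fr hP k hk h1
    rw [h6, act_core2 hw0]
    exact h4

/-- the right multiplication by a point of stage one -/
theorem mul_eq {c : Pt X2} (hc : Om (St X2 0) c.1) (he : Even (pos c.1)) (h0 : c.1 ≠ []) :
    ∃ k : List L2, (∀ y ∈ k, y ∈ St X2 0) ∧
      ∀ p : Pt X2, (p * c).1 = fr k (act (Ltr.n (ww c.1)) (br k p.1)) := by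
  obtain ⟨h1, h2, h3, k, hk, h4⟩ := ww_spec hc he h0
  refine ⟨k, hk, ?_⟩
  obtain ⟨k', hk'⟩ := uv_ex (X := X2) (l := k.reverse)
    (fun y hy => St_AA 0 (hk y (List.mem_reverse.1 hy)))
  have e1 : ∀ p : Pt X2, (mkR k' ⟨Ltr.n (ww c.1), St_AA 1 h3⟩ p).1 =
      fr k (act (Ltr.n (ww c.1)) (br k p.1)) := by
    intro p
    show br (uv k') (act (Ltr.n (ww c.1)) (fr (uv k') p.1)) = _
    rw [hk', fr_reverse]
    have := fr_reverse k.reverse (act (Ltr.n (ww c.1)) (br k p.1))
    rw [List.reverse_reverse] at this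
    exact this.symm
  have e2 : mkR k' ⟨Ltr.n (ww c.1), St_AA 1 h3⟩ pt0 = c := by
    apply Subtype.ext
    rw [e1]
    exact h4
  intro p
  have e3 := TT_ts.R_eq (mkR_mem k' ⟨Ltr.n (ww c.1), St_AA 1 h3⟩)
  rw [e2] at e3
  rw [pt_mul, ← e1]
  exact congrArg Subtype.val (congrFun e3 p)

/-- the generators -/
noncomputable def x0 : Pt X2 := gn 0
/-- the generators -/
noncomputable def y0 : Pt X2 := gn 1

theorem mul_x0 (p : Pt X2) : (p * x0).1 = act g0 p.1 := mul_zt p ⟨Ltr.g 0, 0, 0, rfl⟩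
theorem mul_y0 (p : Pt X2) : (p * y0).1 = act g1 p.1 := mul_zt p ⟨Ltr.g 1, 0, 1, rfl⟩

theorem act_cons {z : L2} (hz : z ∈ St X2 0) {v : List L2} (h : v.head? ≠ some z) :
    act z v = z :: v := by
  rcases act_cases z v with h1 | ⟨-, -, h1⟩ | ⟨-, x', h1, h2⟩
  · exact absurd h1 (st0_not_core hz v)
  · exact h1
  · exact absurd (by rw [h1]; rfl) h

theorem x0_val : x0.1 = [g0] := by
  have h := mul_x0 1
  rw [one_mul', pt_one, act_cons g0_mem (by simp)] at h
  exact h

theorem y0_val : y0.1 = [g1] := by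
  have h := mul_y0 1
  rw [one_mul', pt_one, act_cons g1_mem (by simp)] at h
  exact h

theorem xy_val : (x0 * y0).1 = cc1 := by
  rw [mul_y0, x0_val, act_cons g1_mem (by simp [g01])]; rfl

theorem cw_val : (cw x0 y0).1 = cc2 := by
  unfold cw
  rw [mul_y0, mul_x0, xy_val]
  unfold cc1
  rw [act_cons g0_mem (by simp [g01.symm]), act_cons g1_mem (by simp [g01])]; rfl

theorem yxy_val : ((y0 * x0) * y0).1 = [g1, g0, g1] := by
  rw [mul_y0, mul_x0, y0_val, act_cons g0_mem (by simp [g01.symm]),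
    act_cons g1_mem (by simp [g01])]

/-- the letters of the orbit -/
def A1 : Set L2 := {z | z ∈ St X2 0 ∨ z = Ltr.n (ww cc1)}

theorem ev1 : Even (pos cc1) := by rw [pos1]; exact ⟨1, rfl⟩
theorem ev2 : Even (pos cc2) := by rw [pos2]; exact ⟨2, rfl⟩

theorem A1_cl : Cl A1 := by
  intro w hw
  rcases hw with hw | hw
  · exact absurd rfl (st0_not_n hw w)
  · obtain rfl := Ltr.n_inj hw
    obtain ⟨h1, h2, -, -⟩ := ww_spec om1 ev1 (by simp [cc1])
    exact ⟨h1.mono fun z hz => Or.inl hz, h2, fun h => absurd rfl (st0_not_n (h1.2 _ h) _)⟩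

theorem om_g0 {p : Pt X2} (h : Om A1 p.1) : Om A1 (p * x0).1 := by
  rw [mul_x0]; exact act_om A1_cl (Or.inl g0_mem) h

theorem om_g1 {p : Pt X2} (h : Om A1 p.1) : Om A1 (p * y0).1 := by
  rw [mul_y0]; exact act_om A1_cl (Or.inl g1_mem) h

theorem om_xy {p : Pt X2} (h : Om A1 p.1) : Om A1 (p * (x0 * y0)).1 := by
  obtain ⟨k, hk, hk2⟩ := mul_eq (c := x0 * y0) (by rw [xy_val]; exact om1)
    (by rw [xy_val]; exact ev1) (by rw [xy_val]; simp [cc1])
  rw [hk2, xy_val]
  exact fr_om A1_cl (fun y hy => Or.inl (hk y hy)) (act_om A1_cl (Or.inr rfl)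
    (br_om A1_cl k (fun y hy => Or.inl (hk y hy)) h))

theorem orbit_om {p : Pt X2} (h : p ∈ P x0 y0) : Om A1 p.1 := by
  obtain ⟨g, hg, rfl⟩ := h
  have h1 : ∀ p : Pt X2, Om A1 (g p).1 ↔ Om A1 p.1 := by
    induction hg using Subgroup.closure_induction with
    | mem g hg =>
      have key : ∀ a : Pt X2, (∀ p : Pt X2, Om A1 p.1 → Om A1 (p * a).1) → ∀ p : Pt X2,
          Om A1 (R a p).1 ↔ Om A1 p.1 := by
        intro a ha p
        refine ⟨fun h => ?_, ha p⟩
        have h2 := ha _ h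
        rw [R_apply, rr] at h2
        exact h2
      rcases hg with rfl | rfl | rfl
      · exact key _ fun p => om_g0
      · exact key _ fun p => om_g1
      · exact key _ fun p => om_xy
    | one => exact fun p => Iff.rfl
    | mul g1 g2 _ _ h1 h2 => exact fun p => (h1 (g2 p)).trans (h2 p)
    | inv g _ h =>
      intro p
      have h2 := h (g⁻¹ p)
      rw [← h2]
      have h3 : g (g⁻¹ p) = p := g.apply_symm_apply p
      rw [h3]
  rw [h1]
  exact om_nil

theorem keep {ζ : L2} (hζ : ζ ∉ St X2 0) (k : List L2) (hk : ∀ y ∈ k, y ∈ St X2 0) {v : List L2}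
    (hv : ζ ∈ v) : ζ ∈ fr k v := by
  induction k with
  | nil => exact hv
  | cons z k ih =>
    have h1 := ih (fun y hy => hk y (List.mem_cons_of_mem _ hy))
    show ζ ∈ act z (fr k v)
    rcases act_cases z (fr k v) with h2 | ⟨-, -, h2⟩ | ⟨-, x', h2, h3⟩
    · exact absurd h2 (st0_not_core (hk z List.mem_cons_self) _)
    · rw [h2]; exact List.mem_cons_of_mem _ h1
    · rw [h3]
      rw [h2] at h1
      rcases List.mem_cons.1 h1 with h4 | h4
      · exfalso
        apply hζ
        rw [h4]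
        exact hk z List.mem_cons_self
      · exact h4

/-- the image of `x` is not in the orbit -/
theorem not_orbit : ((y0 * x0) * y0) * cw x0 y0 ∉ P x0 y0 := by
  intro h
  have h1 := orbit_om h
  obtain ⟨k, hk, hk2⟩ := mul_eq (c := cw x0 y0) (by rw [cw_val]; exact om2)
    (by rw [cw_val]; exact ev2) (by rw [cw_val]; simp [cc2])
  obtain ⟨h3, h4, h5, -⟩ := ww_spec om2 ev2 (by simp [cc2])
  rw [cw_val] at hk2
  set ζ : L2 := Ltr.n (ww cc2) with hζ
  have hζ0 : ζ ∉ St X2 0 := fun h => absurd rfl (st0_not_n h _)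
  have hζ1 : ζ ∉ A1 := by
    rintro (h | h)
    · exact hζ0 h
    · exact ww_ne (Ltr.n_inj h).symm
  have hP := St_cl (X := X2) 0
  have hP1 := St_cl (X := X2) 1
  have hζP : ζ ∈ St X2 1 := h5
  have hk1 : ∀ y ∈ k, y ∈ St X2 1 := fun y hy => St_mono (Nat.zero_le 1) (hk y hy)
  -- a point over the first stage which is not a core point
  have key : ∀ u : List L2, Om (St X2 0) u → ¬ IsCore ζ u → ζ ∈ fr k (act ζ u) := by
    intro u hu hc
    apply keep hζ0 k hk
    rcases act_cases ζ u with h6 | ⟨-, -, h6⟩ | ⟨-, x', h6, -⟩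
    · exact absurd h6 hc
    · rw [h6]; exact List.mem_cons_self
    · exfalso
      apply hζ0
      apply hu.2
      rw [h6]; exact List.mem_cons_self
  have ho : Om (St X2 0) ([] : List L2) := om_nil
  set u0 := br k [] with hu0
  have hu0o : Om (St X2 0) u0 := br_om hP k hk ho
  have c0 : IsCore ζ u0 := by
    by_contra hc
    have h6 := key u0 hu0o hc
    have h7 := hk2 1
    rw [one_mul', pt_one, cw_val] at h7
    rw [← h7] at h6
    exact hζ0 (om2.2 _ h6)
  set p := (y0 * x0) * y0 with hp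
  have hpo : Om (St X2 0) p.1 := by
    rw [yxy_val]
    apply om_of
    · intro z hz
      simp only [List.mem_cons, List.not_mem_nil, or_false] at hz
      rcases hz with rfl | rfl | rfl
      · exact g1_mem
      · exact g0_mem
      · exact g1_mem
    · simp [Red, g01.symm, g01]
  set u1 := br k p.1 with hu1
  have hu1o : Om (St X2 0) u1 := br_om hP k hk hpo
  have hne : u1 ≠ u0 := by
    intro e
    have h6 := congrArg (fr k) e
    rw [hu1, hu0, fr_br hP k hk hpo, fr_br hP k hk ho, yxy_val] at h6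
    simp at h6
  by_cases c1 : IsCore ζ u1
  · have h6 : act ζ u1 = u0 := core_ne hP1 hζP c1 c0 hne
    have h7 := hk2 p
    rw [← hu1, h6, hu0, fr_br hP k hk ho] at h7
    have h8 : p * cw x0 y0 = 1 := Subtype.ext h7
    have h9 := eq_of_mul h8
    have h10 := congrArg Subtype.val h9
    rw [cw_val, yxy_val] at h10
    have h11 := congrArg List.length h10
    simp [cc2] at h11
  · have h6 := key u1 hu1o c1
    have h7 := hk2 p
    rw [← hu1] at h7
    rw [← h7] at h6
    exact hζ1 (h1.2 _ h6)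

/-- **the automorphism is wild** -/
theorem main {B : Type} [BolLoop B] (ι : Fin 2 → B) (h : IsFree ι) :
    wild (ι 0) (ι 1) ∉ Subgroup.closure {ψ | Elem ι ψ} := by
  apply wild_of
  intro h1
  obtain ⟨F, ⟨hF, hF2⟩, -⟩ := h (Pt X2) gn
  have h2 := P_hom F hF _ _ h1
  rw [hF2, hF2] at h2
  apply not_orbit
  have e : F (((ι 1 * ι 0) * ι 1) * cw (ι 0) (ι 1)) = ((y0 * x0) * y0) * cw x0 y0 := by
    unfold cw
    simp only [hF, hF2]
    rfl
  rw [e] at h2
  exact h2

end Pool.Agent.J4.H9.BolTame
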